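import Mathlib
import Pool.Agent.H7.TwoSided

set_option autoImplicit false

namespace Pool.Agent.Results.MP_5ec752_co.Counter

open Pool.Agent.H7.TwoSided

theorem rB : RegB [24, 9, 4, 2, 1, 1, 7] :=
  .front _ [9, 4, 2, 1, 1, 7] (.front _ [1, 1, 7] (.back [4, 2, 1, 1] [4, 2, 1]
    (.front _ [2, 1, 1] (.front _ [1, 1] .base (by decide) (by decide))
    (by decide) (by decide)) (by decide) (by decide)) (by decide) (by decide)) (by decide) (by decide)

theorem rA : RegA [24, 6, 4, 2, 1, 1, 1, 9] :=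
  .front _ 7 (.back [6, 4, 2, 1, 1, 1] 5 (.front _ 2 (.front _ 3 (.front _ 2
      (.front _ 1 .base (by decide) (by decide))
    (by decide) (by decide)) (by decide) (by decide)) (by decide) (by decide)) (by decide) (by decide))
    (by decide) (by decide)

theorem result : ∃ k₁ k₂ : ℕ, 0 < k₁ ∧ 0 < k₂ ∧
    (∃ d, RegB d ∧ [k₁, k₂].Subperm d) ∧ b [k₁, k₂] < a [k₁, k₂] := by
  have h2 : b [9, 24] ≤ 7 := Nat.sInf_le ⟨_, rB, rfl, by decide⟩
  have h3 := a_gt 9 24 5 (by norm_num) (by decide +kernel) _ rA (by decide)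
  exact ⟨9, 24, by norm_num, by norm_num, ⟨_, rB, by decide⟩, by omega⟩

end Pool.Agent.Results.MP_5ec752_co.Counter
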